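import Mathlib

/-!
The capacity lemma (helper19): the two suprema of `(3/4)(a^2+b^2)/(a^3+b^3+c^3)` and
`(3/4)(c^2+b^2)/(a^3+b^3+c^3)` over `b`, weighted with `a` and `c`, add up to at most one.
-/

namespace Pool.Agent.Helper80.NW

theorem exists_root {a s : ℝ} (hs : 0 < s) :
    ∃ b : ℝ, 0 < b ∧ b ^ 3 + 3 * a ^ 2 * b = 2 * s := by
  have hc : ContinuousOn (fun b : ℝ => b ^ 3 + 3 * a ^ 2 * b) (Set.Icc 0 (1 + 2 * s)) := by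
    fun_prop
  have h0 : (0 : ℝ) ≤ 1 + 2 * s := by positivity
  have himg := intermediate_value_Icc h0 hc
  have hmem : 2 * s ∈ Set.Icc ((fun b : ℝ => b ^ 3 + 3 * a ^ 2 * b) 0)
      ((fun b : ℝ => b ^ 3 + 3 * a ^ 2 * b) (1 + 2 * s)) := by
    constructor
    · simp only
      nlinarith
    · simp only
      have h1 : 0 ≤ 3 * a ^ 2 * (1 + 2 * s) := by positivity
      have h2 : 2 * s ≤ (1 + 2 * s) ^ 3 := by
        have : (1 + 2 * s) ^ 3 = 1 + 6 * s + 12 * s ^ 2 + 8 * s ^ 3 := by ring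
        rw [this]
        have h3 : 0 ≤ 12 * s ^ 2 + 8 * s ^ 3 := by positivity
        linarith
      linarith
  obtain ⟨b, hb, hbe⟩ := himg hmem
  simp only at hbe
  refine ⟨b, ?_, hbe⟩
  rcases lt_or_eq_of_le hb.1 with h | h
  · exact h
  · exfalso
    rw [← h] at hbe
    norm_num at hbe
    linarith

/-- `P + Q ≤ 2` when `N(P) N(Q) = 4 P^3 Q^3` with `N(P) = 1 + 3 P^2 - 2 P^3`. -/
theorem add_le_two {P Q : ℝ} (hP : 0 ≤ P) (hQ : 0 ≤ Q)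
    (hNP : 0 ≤ 1 + 3 * P ^ 2 - 2 * P ^ 3) (hNQ : 0 ≤ 1 + 3 * Q ^ 2 - 2 * Q ^ 3)
    (hPQ : (1 + 3 * P ^ 2 - 2 * P ^ 3) * (1 + 3 * Q ^ 2 - 2 * Q ^ 3) = 4 * P ^ 3 * Q ^ 3) :
    P + Q ≤ 2 := by
  by_contra hcon
  push Not at hcon
  have hP2 : P < 2 := by
    by_contra h
    push Not at h
    have : 2 * P ^ 3 ≥ 4 * P ^ 2 := by nlinarith [sq_nonneg P]
    nlinarith
  have hQ2 : Q < 2 := by
    by_contra h
    push Not at h
    have : 2 * Q ^ 3 ≥ 4 * Q ^ 2 := by nlinarith [sq_nonneg Q]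
    nlinarith
  have hP0 : 0 < P := by linarith
  have hQ0 : 0 < Q := by linarith
  -- R = 2 - P < Q
  obtain ⟨R, hR⟩ : ∃ R : ℝ, R = 2 - P := ⟨_, rfl⟩
  have hR0 : 0 < R := by linarith
  have hRQ : R < Q := by linarith
  have hNPpos : 0 < 1 + 3 * P ^ 2 - 2 * P ^ 3 := by
    rcases lt_or_eq_of_le hNP with h | h
    · exact h
    · exfalso
      rw [← h, zero_mul] at hPQ
      have : 0 < 4 * P ^ 3 * Q ^ 3 := by positivity
      linarith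
  have h1 : (1 + 3 * Q ^ 2 - 2 * Q ^ 3) * R ^ 3 < (1 + 3 * R ^ 2 - 2 * R ^ 3) * Q ^ 3 := by
    have e : (1 + 3 * R ^ 2 - 2 * R ^ 3) * Q ^ 3 - (1 + 3 * Q ^ 2 - 2 * Q ^ 3) * R ^ 3
        = (Q - R) * (Q ^ 2 + Q * R + R ^ 2) + 3 * Q ^ 2 * R ^ 2 * (Q - R) := by ring
    have h2 : 0 < (Q - R) * (Q ^ 2 + Q * R + R ^ 2) := by
      have : 0 < Q - R := by linarith
      positivity
    have h3 : 0 < 3 * Q ^ 2 * R ^ 2 * (Q - R) := by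
      have : 0 < Q - R := by linarith
      positivity
    linarith
  have h2 : (1 + 3 * P ^ 2 - 2 * P ^ 3) * ((1 + 3 * Q ^ 2 - 2 * Q ^ 3) * R ^ 3)
      < (1 + 3 * P ^ 2 - 2 * P ^ 3) * ((1 + 3 * R ^ 2 - 2 * R ^ 3) * Q ^ 3) :=
    mul_lt_mul_of_pos_left h1 hNPpos
  have h3 : (1 + 3 * P ^ 2 - 2 * P ^ 3) * (1 + 3 * R ^ 2 - 2 * R ^ 3) ≤ 4 * P ^ 3 * R ^ 3 := by
    have e : 4 * P ^ 3 * R ^ 3 - (1 + 3 * P ^ 2 - 2 * P ^ 3) * (1 + 3 * R ^ 2 - 2 * R ^ 3)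
        = 3 * (P - 1) ^ 4 := by
      rw [hR]; ring
    have : 0 ≤ 3 * (P - 1) ^ 4 := by positivity
    linarith
  have h4 : 0 < Q ^ 3 := by positivity
  have h5 : (1 + 3 * P ^ 2 - 2 * P ^ 3) * (1 + 3 * R ^ 2 - 2 * R ^ 3) * Q ^ 3
      ≤ 4 * P ^ 3 * R ^ 3 * Q ^ 3 := mul_le_mul_of_nonneg_right h3 h4.le
  have h6 : (1 + 3 * P ^ 2 - 2 * P ^ 3) * ((1 + 3 * Q ^ 2 - 2 * Q ^ 3) * R ^ 3)
      = 4 * P ^ 3 * Q ^ 3 * R ^ 3 := by
    rw [← hPQ]; ring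
  nlinarith

/-- The capacity lemma. -/
theorem cap_lemma {a c : ℝ} (ha : 0 ≤ a) (hc : 0 ≤ c) (h : 0 < a ^ 3 + c ^ 3) :
    ∃ g k : ℝ, 0 ≤ g ∧ 0 ≤ k ∧
      (∀ b : ℝ, 0 ≤ b → 3 / 4 * (a ^ 2 + b ^ 2) ≤ g * (a ^ 3 + c ^ 3 + b ^ 3)) ∧
      (∀ b : ℝ, 0 ≤ b → 3 / 4 * (c ^ 2 + b ^ 2) ≤ k * (a ^ 3 + c ^ 3 + b ^ 3)) ∧
      a * g + c * k ≤ 1 := by
  obtain ⟨p, hp, hpe⟩ := exists_root (a := a) h
  obtain ⟨q, hq, hqe⟩ := exists_root (a := c) h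
  refine ⟨1 / (2 * p), 1 / (2 * q), by positivity, by positivity, ?_, ?_, ?_⟩
  · intro b hb
    have h2p : 0 < 2 * p := by positivity
    rw [show 1 / (2 * p) * (a ^ 3 + c ^ 3 + b ^ 3) = (a ^ 3 + c ^ 3 + b ^ 3) / (2 * p) by ring,
      le_div_iff₀ h2p]
    have e : a ^ 3 + c ^ 3 + b ^ 3 - 3 / 4 * (a ^ 2 + b ^ 2) * (2 * p)
        = 1 / 2 * (p - b) ^ 2 * (p + 2 * b) := by
      have : a ^ 3 + c ^ 3 = (p ^ 3 + 3 * a ^ 2 * p) / 2 := by linarith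
      rw [this]; ring
    have h3 : 0 ≤ 1 / 2 * (p - b) ^ 2 * (p + 2 * b) := by positivity
    linarith
  · intro b hb
    have h2q : 0 < 2 * q := by positivity
    rw [show 1 / (2 * q) * (a ^ 3 + c ^ 3 + b ^ 3) = (a ^ 3 + c ^ 3 + b ^ 3) / (2 * q) by ring,
      le_div_iff₀ h2q]
    have e : a ^ 3 + c ^ 3 + b ^ 3 - 3 / 4 * (c ^ 2 + b ^ 2) * (2 * q)
        = 1 / 2 * (q - b) ^ 2 * (q + 2 * b) := by
      have : a ^ 3 + c ^ 3 = (q ^ 3 + 3 * c ^ 2 * q) / 2 := by linarith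
      rw [this]; ring
    have h3 : 0 ≤ 1 / 2 * (q - b) ^ 2 * (q + 2 * b) := by positivity
    linarith
  · have hP : 1 + 3 * (a / p) ^ 2 - 2 * (a / p) ^ 3 = 2 * (c / p) ^ 3 := by
      have hp0 : p ≠ 0 := hp.ne'
      field_simp
      linarith
    have hQ : 1 + 3 * (c / q) ^ 2 - 2 * (c / q) ^ 3 = 2 * (a / q) ^ 3 := by
      have hq0 : q ≠ 0 := hq.ne'
      field_simp
      linarith
    have key : a / p + c / q ≤ 2 := by
      apply add_le_two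
      · positivity
      · positivity
      · rw [hP]; positivity
      · rw [hQ]; positivity
      · rw [hP, hQ]
        field_simp
        ring
    have e : a * (1 / (2 * p)) + c * (1 / (2 * q)) = (a / p + c / q) / 2 := by
      field_simp
    rw [e]
    linarith

end Pool.Agent.Helper80.NW
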